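import Pool.Agent.K7.H50.RJ.Non

set_option autoImplicit false

/-!
# MP_41b9a7_lc, Q1: a deterministic algorithm of ratio below 2 in the preemptive model

There is a deterministic online algorithm for scheduling with rejection on three machines which
never preempts and whose cost is at most `1.99` times the optimal *preemptive* cost.

The algorithm is that of the starting result for the non-preemptive model (Q2). Its analysis
(`core`) uses only two properties of the offline schedule with makespan `T`: every accepted job has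
length at most `T`, and the accepted jobs have total length at most `3 T`. Both are shown here for
preemptive schedules.
-/

namespace Pool.Agent.Results.MP_41b9a7_lc.PreemptiveBelowTwo

open Pool.Agent.K7.H50.RJ
open Finset

/-- Intervals in `[0, T]` which are pairwise apart have total length at most `T`. -/
theorem sum_length_le {ι : Type} (F : Finset ι) (a b : ι → ℝ) : ∀ T : ℝ, 0 ≤ T →
    (∀ i ∈ F, 0 ≤ a i) → (∀ i ∈ F, a i < b i) → (∀ i ∈ F, b i ≤ T) →
    (∀ i ∈ F, ∀ j ∈ F, i ≠ j → b i ≤ a j ∨ b j ≤ a i) → ∑ i ∈ F, (b i - a i) ≤ T := by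
  classical
  induction F using Finset.induction_on_max_value (f := a) with
  | empty =>
    intro T hT _ _ _ _
    simpa using hT
  | insert x F hx hmax ih =>
    intro T hT h0 hab hbT hap
    rw [Finset.sum_insert hx]
    have hx0 := h0 x (mem_insert_self x F)
    have hxT := hbT x (mem_insert_self x F)
    have h1 := ih (a x) hx0 (fun i hi => h0 i (mem_insert_of_mem hi))
      (fun i hi => hab i (mem_insert_of_mem hi))
      (fun i hi => by
        have hne : i ≠ x := fun h => hx (h ▸ hi)
        have h2 := hab x (mem_insert_self x F)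
        have h3 := hmax i hi
        rcases hap i (mem_insert_of_mem hi) x (mem_insert_self x F) hne with h | h
        · exact h
        · linarith)
      (fun i hi j hj hij => hap i (mem_insert_of_mem hi) j (mem_insert_of_mem hj) hij)
    linarith

section Offline

variable {J : ℕ → Job} {n : ℕ} {S : ℕ → Option (Finset Slot)}

/-- The makespan is nonnegative and all slots end at it or earlier. -/
theorem makespan_spec (S : ℕ → Option (Finset Slot)) (n : ℕ) :
    0 ≤ makespan n S ∧ ∀ k < n, ∀ σ, S k = some σ → ∀ s ∈ σ, s.2.2 ≤ makespan n S := by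
  set A : Set ℝ := {T : ℝ | 0 ≤ T ∧ ∀ k < n, ∀ σ, S k = some σ → ∀ s ∈ σ, s.2.2 ≤ T} with hA
  have hne : A.Nonempty := by
    refine ⟨∑ k ∈ range n, ∑ s ∈ (S k).getD ∅, |s.2.2|, ?_, ?_⟩
    · exact sum_nonneg fun k _ => sum_nonneg fun s _ => abs_nonneg _
    · intro k hk σ hσ s hs
      have h1 : |s.2.2| ≤ ∑ s ∈ (S k).getD ∅, |s.2.2| := by
        rw [hσ]
        exact single_le_sum (f := fun s : Slot => |s.2.2|) (fun s _ => abs_nonneg _) hs
      have h2 : ∑ s ∈ (S k).getD ∅, |s.2.2| ≤ ∑ k ∈ range n, ∑ s ∈ (S k).getD ∅, |s.2.2| :=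
        single_le_sum (f := fun k => ∑ s ∈ (S k).getD ∅, |s.2.2|)
          (fun k _ => sum_nonneg fun s _ => abs_nonneg _) (mem_range.2 hk)
      exact (le_abs_self _).trans (h1.trans h2)
  refine ⟨le_csInf hne fun T hT => hT.1, fun k hk σ hσ s hs => ?_⟩
  exact le_csInf hne fun T hT => hT.2 k hk σ hσ s hs

theorem job_le (hS : Feasible J n S) (k : ℕ) (hk : k < n) (h : (S k).isNone = false) :
    (J k).t ≤ makespan n S := by
  obtain ⟨σ, hσ⟩ : ∃ σ, S k = some σ := by
    cases hk' : S k with
    | none => rw [hk'] at h; simp at h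
    | some σ => exact ⟨σ, rfl⟩
  have hm := makespan_spec S n
  rw [← hS.total k hk σ hσ]
  exact sum_length_le σ (fun s => s.2.1) (fun s => s.2.2) _ hm.1
    (fun s hs => (hS.slot k hk σ hσ s hs).1) (fun s hs => (hS.slot k hk σ hσ s hs).2)
    (fun s hs => hm.2 k hk σ hσ s hs) (fun s hs s' hs' hne => hS.apart k hk σ hσ s hs s' hs' hne)

theorem jobs_le (hS : Feasible J n S) :
    sm n (fun k => (S k).isNone = false) (fun k => (J k).t) ≤ 3 * makespan n S := by
  classical
  have hm := makespan_spec S n
  have h1 : sm n (fun k => (S k).isNone = false) (fun k => (J k).t) =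
      ∑ k ∈ range n, ∑ s ∈ (S k).getD ∅, (s.2.2 - s.2.1) := by
    rw [sm]
    refine sum_congr rfl fun k hk => ?_
    cases h : S k with
    | none => simp
    | some σ =>
      simp only [Option.isNone_some, if_true, Option.getD_some]
      exact (hS.total k (mem_range.1 hk) σ h).symm
  have h2 : ∀ k, ∑ s ∈ (S k).getD ∅, (s.2.2 - s.2.1) =
      ∑ i : Fin 3, ∑ s ∈ ((S k).getD ∅).filter (fun s => s.1 = i), (s.2.2 - s.2.1) := by
    intro k
    exact (sum_fiberwise ((S k).getD ∅) (fun s => s.1) fun s => (s.2.2 - s.2.1)).symm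
  rw [h1, sum_congr rfl fun k _ => h2 k, sum_comm]
  have h3 : ∀ i : Fin 3, ∑ k ∈ range n, ∑ s ∈ ((S k).getD ∅).filter (fun s => s.1 = i),
      (s.2.2 - s.2.1) ≤ makespan n S := by
    intro i
    rw [sum_sigma']
    have hmem : ∀ x ∈ (range n).sigma fun k => ((S k).getD ∅).filter (fun s => s.1 = i),
        x.1 < n ∧ ∃ σ, S x.1 = some σ ∧ x.2 ∈ σ ∧ x.2.1 = i := by
      rintro ⟨k, s⟩ hx
      simp only [mem_sigma, mem_range, mem_filter] at hx
      obtain ⟨hk, hs, hi⟩ := hx
      cases h : S k with
      | none => rw [h] at hs; simp at hs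
      | some σ => rw [h] at hs; exact ⟨hk, σ, rfl, hs, hi⟩
    refine sum_length_le _ (fun x : (_ : ℕ) × Slot => x.2.2.1) (fun x => x.2.2.2) _ hm.1
      ?_ ?_ ?_ ?_
    · intro x hx
      obtain ⟨hk, σ, hσ, hs, _⟩ := hmem x hx
      exact (hS.slot _ hk σ hσ _ hs).1
    · intro x hx
      obtain ⟨hk, σ, hσ, hs, _⟩ := hmem x hx
      exact (hS.slot _ hk σ hσ _ hs).2
    · intro x hx
      obtain ⟨hk, σ, hσ, hs, _⟩ := hmem x hx
      exact hm.2 _ hk σ hσ _ hs
    · rintro ⟨k, s⟩ hx ⟨k', s'⟩ hx' hne
      obtain ⟨hk, σ, hσ, hs, hi⟩ := hmem _ hx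
      obtain ⟨hk', σ', hσ', hs', hi'⟩ := hmem _ hx'
      simp only at hk hσ hs hi hk' hσ' hs' hi' ⊢
      by_cases hkk : k = k'
      · subst hkk
        rw [hσ] at hσ'
        obtain rfl := Option.some.inj hσ'
        exact hS.apart k hk σ hσ s hs s' hs' fun h => hne (by rw [h])
      · exact hS.machine k hk k' hk' hkk σ σ' hσ hσ' s hs s' hs' (hi.trans hi'.symm)
  calc _ ≤ ∑ _i : Fin 3, makespan n S := sum_le_sum fun i _ => h3 i
    _ = 3 * makespan n S := by simp

end Offline

section Online

variable (J : ℕ → Job)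

/-- The algorithm, as an algorithm of the preemptive model: an accepted job gets one slot, at the
end of a least loaded machine. -/
noncomputable def algP (l : List Job) : Option (Finset Slot) :=
  match l.getLast?, alg l with
  | some j, some i => some {(i, (run l.dropLast).L i, (run l.dropLast).L i + j.t)}
  | _, _ => none

theorem decisions_algP (k : ℕ) : decisions algP J k =
    (decisions alg J k).map fun i => {(i, (S J k).L i, (S J k).L i + (J k).t)} := by
  unfold decisions algP S
  rw [List.range_succ, List.map_append]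
  simp only [List.map_cons, List.map_nil, List.getLast?_concat, List.dropLast_concat]
  cases h : alg (List.map J (List.range k) ++ [J k]) with
  | none => rfl
  | some i => rfl

theorem isNone_algP (k : ℕ) :
    (decisions algP J k).isNone = (decisions alg J k).isNone := by
  rw [decisions_algP]
  cases decisions alg J k <;> rfl

theorem algP_some {k : ℕ} {σ : Finset Slot} (h : decisions algP J k = some σ) :
    ∃ i, decisions alg J k = some i ∧ σ = {(i, (S J k).L i, (S J k).L i + (J k).t)} := by
  rw [decisions_algP] at h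
  cases hd : decisions alg J k with
  | none => rw [hd] at h; simp at h
  | some i =>
    rw [hd] at h
    exact ⟨i, rfl, by simpa using h.symm⟩

theorem S_L_mono {k k' : ℕ} (h : k ≤ k') (i : Fin 3) : (S J k).L i ≤ (S J k').L i := by
  rw [S_L, S_L, load, load]
  refine sum_le_sum_of_subset_of_nonneg (range_mono h) fun l _ _ => ?_
  have := (J l).t_pos
  split_ifs <;> linarith

theorem S_L_nonneg (k : ℕ) (i : Fin 3) : 0 ≤ (S J k).L i := by
  rw [S_L]
  exact load_nonneg J k _ i

theorem S_L_succ {k : ℕ} {i : Fin 3} (h : decisions alg J k = some i) :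
    (S J (k + 1)).L i = (S J k).L i + (J k).t := by
  rw [S_L, S_L, load, load, sum_range_succ, if_pos h]

theorem feasible_algP (n : ℕ) : Feasible J n (decisions algP J) := by
  have hap : ∀ k k' : ℕ, k < k' → ∀ σ σ', decisions algP J k = some σ →
      decisions algP J k' = some σ' → ∀ s ∈ σ, ∀ s' ∈ σ', s.1 = s'.1 → s.2.2 ≤ s'.2.1 := by
    intro k k' hkk σ σ' hσ hσ' s hs s' hs' hss
    obtain ⟨i, hi, rfl⟩ := algP_some J hσ
    obtain ⟨i', hi', rfl⟩ := algP_some J hσ'
    rw [mem_singleton] at hs hs'
    subst hs hs'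
    simp only at hss ⊢
    subst hss
    rw [← S_L_succ J hi]
    exact S_L_mono J hkk i
  refine ⟨?_, ?_, ?_, ?_⟩
  · intro k hk σ hσ s hs
    obtain ⟨i, hi, rfl⟩ := algP_some J hσ
    rw [mem_singleton] at hs
    subst hs
    exact ⟨S_L_nonneg J k i, by have := (J k).t_pos; simp only; linarith⟩
  · intro k hk σ hσ s hs s' hs' hne
    obtain ⟨i, hi, rfl⟩ := algP_some J hσ
    rw [mem_singleton] at hs hs'
    exact absurd (hs.trans hs'.symm) hne
  · intro k hk σ hσ
    obtain ⟨i, hi, rfl⟩ := algP_some J hσ
    rw [sum_singleton]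
    ring
  · intro k hk k' hk' hkk σ σ' hσ hσ' s hs s' hs' hss
    rcases lt_or_gt_of_ne hkk with h | h
    · exact Or.inl (hap k k' h σ σ' hσ hσ' s hs s' hs' hss)
    · exact Or.inr (hap k' k h σ' σ hσ' hσ s' hs' s hs hss.symm)

theorem makespan_algP (n : ℕ) (X : ℝ) (hX : ∀ i, (S J n).L i ≤ X) :
    makespan n (decisions algP J) ≤ X := by
  refine csInf_le ⟨0, fun T hT => hT.1⟩ ⟨(S_L_nonneg J n 0).trans (hX 0), ?_⟩
  intro k hk σ hσ s hs
  obtain ⟨i, hi, rfl⟩ := algP_some J hσ
  rw [mem_singleton] at hs
  subst hs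
  simp only
  rw [← S_L_succ J hi]
  exact (S_L_mono J hk i).trans (hX i)

theorem penalty_algP (n : ℕ) : penalty J n (decisions algP J) = (S J n).P := by
  rw [S_P, penalty, penalty]
  refine sum_congr rfl fun k _ => ?_
  rw [isNone_algP]

end Online

/-- Some deterministic online algorithm is `1.99`-competitive in the preemptive model. -/
theorem result : ∃ A : List Job → Option (Finset Slot), CompetitiveP A (199 / 100) := by
  refine ⟨algP, fun J n => ⟨feasible_algP J n, ?_⟩⟩
  have key : ∀ S' : {S : ℕ → Option (Finset Slot) // Feasible J n S},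
      costP J n (decisions algP J) ≤ (199 / 100) * costP J n S'.1 := by
    rintro ⟨S', hS'⟩
    have hm := makespan_spec S' n
    have hc := core J (fun k => (S' k).isNone = false) n (makespan n S') hm.1
      (fun k hk hO => job_le hS' k hk hO) (jobs_le hS')
    rw [← penalty_sm J n S'] at hc
    unfold costP
    rw [penalty_algP]
    have := makespan_algP J n ((199 / 100) * (makespan n S' + penalty J n S') - (S J n).P)
      (fun i => by linarith [hc i])
    linarith
  have hne : Nonempty {S : ℕ → Option (Finset Slot) // Feasible J n S} :=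
    ⟨⟨decisions algP J, feasible_algP J n⟩⟩
  have h1 : (100 / 199) * costP J n (decisions algP J) ≤ OPTP J n := by
    unfold OPTP
    refine le_ciInf fun S' => ?_
    linarith [key S']
  linarith

end Pool.Agent.Results.MP_41b9a7_lc.PreemptiveBelowTwo
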